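import Pool.Agent.Helper63.SH.Ka
import Pool.Agent.Helper65.LU.F
import Pool.Agent.Helper53.LX.Th
import Pool.Agent.Helper7.SH.Kh
import Pool.Agent.Helper12.SH.Kb
import Pool.Agent.Helper93.SH.Vg
import Pool.Agent.Helper35.SH.Ef

/-!
PROJECT ALLQ, K_base: the types of the Fermat curves are good, with the scales of LT2. Assembly.
-/

set_option autoImplicit false

namespace Pool.Agent.Helper63.SH

open Finset Complex Pool.Agent.Helper34.LT LTG Pool.Agent.Helper34.LU Pool.Agent.Helper49.SH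
open Pool.Agent.Helper44.LT (PU)
open Pool.Agent.Helper13.LT (PS)

noncomputable section

/-! the two inputs -/

theorem Fx_eq (q : ℕ) (s : Finset ℕ) (ρ : ℕ → ℂ) (κ : s → ℂ) (f : (s → ℂ) → ℂ) :
    Pool.Agent.Helper7.SH.FK q s ρ κ f = Fx q s ρ κ (f2 f) := by
  funext w
  simp only [Pool.Agent.Helper7.SH.FK, Fx, f2, Pool.Agent.Helper7.SH.Qf, Qx,
    Pool.Agent.Helper7.SH.zc, mul_assoc]
  rfl

/-- form part (helper7) -/
theorem Kf {q : ℕ} {s : Finset ℕ} {ρ : ℕ → ℂ} {κ : s → ℂ} {c : Polynomial ℤ → ℂ}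
    {f : (s → ℂ) → ℂ} (h : IsTh q s ρ κ c f) :
    ∃ (ξ : Polynomial ℚ) (E : Iq q → Iq q → ℚ), KForm q ξ E ∧ Pol E (Ns q s) ∧
      AT E (Ns q s) (Fx q s ρ κ (f2 f)) ∧ Fx q s ρ κ (f2 f) ≠ 0 ∧
      (∀ u : s, Polynomial.aeval (zt q ^ (u : ℕ)) ξ = κ u * ρ u / (Real.pi * I)) ∧
      ∀ u : s, (κ u * ρ u).im = 0 := by
  obtain ⟨ξ, E, h1, h2, h3, h4, -, -, h5, h6⟩ :=
    Pool.Agent.Helper7.SH.Kf_main h.half h.rho h.kap h.diff h.ne h.qp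
  rw [Fx_eq] at h3 h4
  refine ⟨ξ, E, h1, h2, h3, h4, h5, fun u => ?_⟩
  rw [(h6 u).2, Complex.ofReal_im]

/-- evaluation at the rational points (helper12, helper93) -/
theorem Ke {q : ℕ} {s : Finset ℕ} {ρ : ℕ → ℂ} {κ : s → ℂ} {c : Polynomial ℤ → ℂ}
    {f : (s → ℂ) → ℂ} (h : IsTh q s ρ κ c f) (him : ∀ u : s, (κ u * ρ u).im = 0) (t : Iq q → ℚ)
    (h0 : f2 f (sc q s ρ (rv t)) ≠ 0) :
    IsAlgebraic ℚ (f2 f (sc q s ρ (rv t)) *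
      exp (-(Bx ρ κ (sc q s ρ (rv t)) (sc q s ρ (rv t))))) ∧
    ∀ u : s, IsAlgebraic ℚ ((fderiv ℂ (f2 f) (sc q s ρ (rv t)) (Pi.single u 1) -
          2 * Bx ρ κ (sc q s ρ (rv t)) (Pi.single u 1) * f2 f (sc q s ρ (rv t))) *
        exp (-(Bx ρ κ (sc q s ρ (rv t)) (sc q s ρ (rv t))))) := by
  obtain ⟨n, hn, hp⟩ := Pool.Agent.Helper12.SH.exists_mul_mem q s ρ t
  exact Pool.Agent.Helper93.SH.eval_theta
    ⟨Pool.Agent.Helper12.SH.Bs_add_left s ρ κ, Pool.Agent.Helper12.SH.Bs_smul_left s ρ κ,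
      Pool.Agent.Helper12.SH.Bs_add_right s ρ κ, Pool.Agent.Helper12.SH.Bs_smul_right s ρ κ,
      Pool.Agent.Helper12.SH.Bs_nd s ρ κ h.rho h.kap, Pool.Agent.Helper12.SH.Bs_im s ρ κ h.rho him⟩
    (Pool.Agent.Helper12.SH.AE_f2 h.rt) (Pool.Agent.Helper12.SH.Lt q s ρ)
    (Pool.Agent.Helper12.SH.f2_qp q s ρ κ c h.rho h.qp h.ne)
    (Pool.Agent.Helper12.SH.Lt_cocompact q s ρ h.half h.rho) hn hp h0

/-! assembly -/

theorem diff_f2 {ι : Type} [Fintype ι] {f : (ι → ℂ) → ℂ} (h : Differentiable ℂ f) :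
    Differentiable ℂ (f2 f) :=
  h.mul (h.comp (differentiable_id.neg : Differentiable ℂ fun z : ι → ℂ => -z))

theorem GoodS_of_IsTh {q : ℕ} {s : Finset ℕ} {ρ : ℕ → ℂ} {κ : s → ℂ} {c : Polynomial ℤ → ℂ}
    {f : (s → ℂ) → ℂ} (h : IsTh q s ρ κ c f) : GoodS q s ρ := by
  obtain ⟨ξ, E, hK, hP, hA, h0, hξ, him⟩ := Kf h
  have hval : ∀ t : Iq q → ℚ, IsAlgebraic ℚ (Fx q s ρ κ (f2 f) (rv t)) := by
    intro t
    rw [Fx_rv h.half h.rho]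
    by_cases h1 : f2 f (sc q s ρ (rv t)) = 0
    · rw [h1, zero_mul]
      exact isAlgebraic_zero
    · exact (Ke h him t h1).1
  have hT : AlgT E (Ns q s) (Fx q s ρ κ (f2 f)) := { toAT := hA, val := hval }
  refine ⟨h.half, ξ, E, hK, hP, ⟨_, hT, h0⟩, ?_⟩
  intro u hu
  refine ⟨h.rho u hu, ?_⟩
  intro ε hε
  refine Pool.Agent.Helper35.SH.E_one hP hT h0 (eps_mem_Nc h.half ⟨u, hu⟩ hε _) ?_
  intro t ht
  have h1 : f2 f (sc q s ρ (rv t)) ≠ 0 := by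
    intro h1
    apply ht
    rw [Fx, h1, mul_zero]
  rw [nab_Fx h.half h.rho (diff_f2 h.diff) hK hξ ⟨u, hu⟩ hε t]
  exact (Ke h him t h1).2 ⟨u, hu⟩

theorem K_base (q a b : ℕ) (h3 : 3 ≤ q) (ha : ¬ q ∣ a) (hb : ¬ q ∣ b)
    (hab : Nat.Coprime (a + b) q) : GoodS q (PU q a b) (rhU q a b) := by
  obtain ⟨τ, ht⟩ := Pool.Agent.Helper65.LU.F_main q a b h3 ha hb hab
  obtain ⟨κ, c, f, h⟩ := Pool.Agent.Helper53.LX.TH_main q a b h3 ha hb hab τ ht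
  exact GoodS_of_IsTh h

end

end Pool.Agent.Helper63.SH
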