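import Pool.Agent.Helper49.SH.Df

/-!
PROJECT ALLQ, K_base (captain helper63): the theta function `F` on `ℂ^(Iq q)` which belongs to a theta function
`f` of type `s` in scaled coordinates, and its covariant derivative.
-/

set_option autoImplicit false

namespace Pool.Agent.Helper63.SH

open Finset Complex Pool.Agent.Helper34.LT LTG Pool.Agent.Helper34.LU Pool.Agent.Helper49.SH

noncomputable section

/-- `f(z) f(-z)` -/
def f2 {ι : Type} (f : (ι → ℂ) → ℂ) (z : ι → ℂ) : ℂ := f z * f (-z)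

/-- scaled coordinates of a vector of `ℂ^(Iq q)` -/
def sc (q : ℕ) (s : Finset ℕ) (ρ : ℕ → ℂ) (w : Iq q → ℂ) : s → ℂ := fun u => ρ u * em q u w

/-- the quadratic exponent -/
def Qx (q : ℕ) (s : Finset ℕ) (ρ : ℕ → ℂ) (κ : s → ℂ) (w : Iq q → ℂ) : ℂ :=
  ∑ u : s, κ u * ρ u * (em q u w * em q (q - u) w)

/-- theta function on `ℂ^(Iq q)` -/
def Fx (q : ℕ) (s : Finset ℕ) (ρ : ℕ → ℂ) (κ : s → ℂ) (g : (s → ℂ) → ℂ) (w : Iq q → ℂ) : ℂ :=
  exp (-(Qx q s ρ κ w)) * g (sc q s ρ w)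

/-- the hermitian form in scaled coordinates, antilinear in `x`, linear in `z` -/
def Bx {s : Finset ℕ} (ρ : ℕ → ℂ) (κ : s → ℂ) (x z : s → ℂ) : ℂ :=
  ∑ u : s, κ u * (starRingEnd ℂ) (x u / ρ u) * z u

theorem em_add (q u : ℕ) (a b : Iq q → ℂ) : em q u (a + b) = em q u a + em q u b := by
  simp [Pool.Agent.Helper49.SH.em, add_mul, Finset.sum_add_distrib]

theorem em_smul (q u : ℕ) (c : ℂ) (a : Iq q → ℂ) : em q u (c • a) = c * em q u a := by
  simp [Pool.Agent.Helper49.SH.em, Finset.mul_sum, mul_assoc]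

/-- `em` as a continuous linear map -/
def emL (q u : ℕ) : (Iq q → ℂ) →L[ℂ] ℂ :=
  LinearMap.toContinuousLinearMap
    { toFun := em q u
      map_add' := em_add q u
      map_smul' := em_smul q u }

theorem emL_apply (q u : ℕ) (w : Iq q → ℂ) : emL q u w = em q u w := rfl

theorem conj_zt_pow {q v : ℕ} (hq : 0 < q) (hv : v ≤ q) (i : ℕ) :
    (starRingEnd ℂ) (zt q ^ (v * i)) = zt q ^ ((q - v) * i) := by
  have hz : zt q ≠ 0 := Complex.exp_ne_zero _
  have h1 : (starRingEnd ℂ) (zt q) = (zt q)⁻¹ := by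
    rw [zt, ← Complex.exp_conj, ← Complex.exp_neg]
    congr 1
    simp only [map_div₀, map_mul, Complex.conj_ofReal, Complex.conj_I, map_ofNat, map_natCast]
    ring
  have h2 : zt q ^ q = 1 := by
    rw [zt, ← Complex.exp_nat_mul]
    have hq' : (q : ℂ) ≠ 0 := by exact_mod_cast hq.ne'
    rw [mul_div_cancel₀ _ hq']
    exact Complex.exp_two_pi_mul_I
  rw [map_pow, h1, inv_pow]
  symm
  apply eq_inv_of_mul_eq_one_left
  rw [← pow_add, ← add_mul, Nat.sub_add_cancel hv, pow_mul, h2, one_pow]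

theorem em_cj {q v : ℕ} (hq : 0 < q) (hv : v ≤ q) (w : Iq q → ℂ) :
    em q v (cj w) = (starRingEnd ℂ) (em q (q - v) w) := by
  simp only [Pool.Agent.Helper49.SH.em, cj, map_sum, map_mul]
  refine Finset.sum_congr rfl fun i _ => ?_
  rw [conj_zt_pow hq (Nat.sub_le q v), Nat.sub_sub_self hv]

theorem em_rv {q v : ℕ} (hq : 0 < q) (hv : v ≤ q) (t : Iq q → ℚ) :
    em q (q - v) (rv t) = (starRingEnd ℂ) (em q v (rv t)) := by
  have h : cj (rv t) = rv t := by
    funext i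
    simp [cj, rv]
  have h1 := em_cj hq (Nat.sub_le q v) (rv t)
  rw [h, Nat.sub_sub_self hv] at h1
  exact h1

/-- the values at the rational points -/
theorem Fx_rv {q : ℕ} {s : Finset ℕ} (hs : HS q s) {ρ : ℕ → ℂ} (hρ : ∀ u ∈ s, ρ u ≠ 0)
    (κ : s → ℂ) (g : (s → ℂ) → ℂ) (t : Iq q → ℚ) :
    Fx q s ρ κ g (rv t) =
      g (sc q s ρ (rv t)) * exp (-(Bx ρ κ (sc q s ρ (rv t)) (sc q s ρ (rv t)))) := by
  rw [Fx, mul_comm]
  congr 3
  rw [Qx, Bx]
  refine Finset.sum_congr rfl fun u _ => ?_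
  have hu := hs.mem u u.2
  have hρu := hρ u u.2
  rw [sc, mul_div_cancel_left₀ _ hρu, em_rv (by omega) hu.2.1.le]
  ring

theorem hasFDerivAt_Qx (q : ℕ) (s : Finset ℕ) (ρ : ℕ → ℂ) (κ : s → ℂ) (w : Iq q → ℂ) :
    HasFDerivAt (Qx q s ρ κ)
      (∑ u : s, (κ u * ρ u) • (em q u w • emL q (q - u) + em q (q - u) w • emL q u)) w := by
  have h : ∀ u ∈ (Finset.univ : Finset s), HasFDerivAt
      (fun w => κ u * ρ u * (em q u w * em q (q - u) w))
      ((κ u * ρ u) • (em q u w • emL q (q - u) + em q (q - u) w • emL q u)) w := by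
    intro u _
    have h1 : HasFDerivAt (fun w => em q u w) (emL q u) w := (emL q u).hasFDerivAt
    have h2 : HasFDerivAt (fun w => em q (q - u) w) (emL q (q - u)) w := (emL q (q - u)).hasFDerivAt
    exact (h1.mul h2).const_mul (κ u * ρ u)
  exact HasFDerivAt.fun_sum h

/-- `sc` as a continuous linear map -/
def scL (q : ℕ) (s : Finset ℕ) (ρ : ℕ → ℂ) : (Iq q → ℂ) →L[ℂ] (s → ℂ) :=
  ContinuousLinearMap.pi fun u => ρ u • emL q u

theorem scL_apply (q : ℕ) (s : Finset ℕ) (ρ : ℕ → ℂ) (w : Iq q → ℂ) :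
    scL q s ρ w = sc q s ρ w := by
  funext u
  simp [scL, sc, emL_apply]

theorem fderiv_Fx {q : ℕ} {s : Finset ℕ} (ρ : ℕ → ℂ) (κ : s → ℂ) {g : (s → ℂ) → ℂ}
    (hg : Differentiable ℂ g) (w e : Iq q → ℂ) :
    fderiv ℂ (Fx q s ρ κ g) w e = exp (-(Qx q s ρ κ w)) *
      (fderiv ℂ g (sc q s ρ w) (sc q s ρ e) -
        (∑ u : s, κ u * ρ u * (em q u w * em q (q - u) e + em q (q - u) w * em q u e)) *
          g (sc q s ρ w)) := by
  have h1 := ((hasFDerivAt_Qx q s ρ κ w).neg).cexp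
  have h2 : HasFDerivAt (fun w => g (sc q s ρ w)) ((fderiv ℂ g (sc q s ρ w)).comp (scL q s ρ)) w := by
    have h3 : HasFDerivAt (fun w => sc q s ρ w) (scL q s ρ) w := by
      have h4 := (scL q s ρ).hasFDerivAt (x := w)
      have h5 : (fun w => sc q s ρ w) = fun w => scL q s ρ w := by
        funext w
        rw [scL_apply]
      rw [h5]
      exact h4
    exact ((hg _).hasFDerivAt).comp w h3
  have h3 := h1.mul h2
  have h4 : HasFDerivAt (Fx q s ρ κ g) _ w := h3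
  rw [h4.fderiv]
  have h5 : (∑ u : s, (κ u * ρ u) • (em q u w • emL q (q - u) + em q (q - u) w • emL q u)) e =
      ∑ u : s, κ u * ρ u * (em q u w * em q (q - u) e + em q (q - u) w * em q u e) := by
    rw [_root_.sum_apply]
    refine Finset.sum_congr rfl fun u _ => ?_
    simp only [smul_apply, add_apply, emL_apply, smul_eq_mul]
  simp only [add_apply, smul_apply, neg_apply, ContinuousLinearMap.comp_apply, scL_apply,
    smul_eq_mul, Pi.neg_apply, h5]
  ring

/-- the covariant derivative in the direction of the coordinate `u` -/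
theorem nab_Fx {q : ℕ} {s : Finset ℕ} (hs : HS q s) {ρ : ℕ → ℂ} (hρ : ∀ u ∈ s, ρ u ≠ 0)
    {κ : s → ℂ} {g : (s → ℂ) → ℂ} (hg : Differentiable ℂ g) {ξ : Polynomial ℚ}
    {E : Iq q → Iq q → ℚ} (hK : KForm q ξ E)
    (hξ : ∀ u : s, Polynomial.aeval (zt q ^ (u : ℕ)) ξ = κ u * ρ u / (Real.pi * I))
    (u : s) {ε : Iq q → ℂ} (hε : IsEps q u ε) (t : Iq q → ℚ) :
    nab E ((ρ u)⁻¹ • ε) (Fx q s ρ κ g) (rv t) =
      (fderiv ℂ g (sc q s ρ (rv t)) (Pi.single u 1) -
          2 * Bx ρ κ (sc q s ρ (rv t)) (Pi.single u 1) * g (sc q s ρ (rv t))) *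
        exp (-(Bx ρ κ (sc q s ρ (rv t)) (sc q s ρ (rv t)))) := by
  have hu := hs.mem u u.2
  have hρu := hρ u u.2
  have hpi : (Real.pi : ℂ) * I ≠ 0 := by
    simp [Real.pi_ne_zero]
  have hemv : ∀ v ∈ UU q, em q v ((ρ u)⁻¹ • ε) = if v = u then (ρ u)⁻¹ else 0 := by
    intro v hv
    rw [em_smul, hε v hv]
    split_ifs <;> simp
  have huU : (u : ℕ) ∈ UU q := HS_mem hs u
  have hsc : sc q s ρ ((ρ u)⁻¹ • ε) = Pi.single u 1 := by
    funext v
    rw [sc, hemv v (HS_mem hs v)]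
    by_cases h : v = u
    · subst h
      simp [hρu]
    · have h' : (v : ℕ) ≠ u := fun h' => h (Subtype.ext h')
      simp [h', h]
  have hsum1 : (∑ v : s, κ v * ρ v * (em q v (rv t) * em q (q - v) ((ρ u)⁻¹ • ε) +
      em q (q - v) (rv t) * em q v ((ρ u)⁻¹ • ε))) = κ u * em q (q - u) (rv t) := by
    rw [Finset.sum_eq_single u]
    · rw [hemv u huU, hemv (q - u) (HS_mem' hs u), if_pos rfl, if_neg]
      · field_simp
        ring
      · intro h
        have h1 := (hs.half u hu.1 hu.2.1 hu.2.2).1 u.2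
        rw [h] at h1
        exact h1 u.2
    · intro v _ hv
      have h' : (v : ℕ) ≠ u := fun h' => hv (Subtype.ext h')
      rw [hemv v (HS_mem hs v), hemv (q - v) (HS_mem' hs v), if_neg h', if_neg]
      · ring
      · intro h
        have h1 := (hs.half v (hs.mem v v.2).1 (hs.mem v v.2).2.1 (hs.mem v v.2).2.2).1 v.2
        rw [h] at h1
        exact h1 u.2
    · intro h
      exact absurd (Finset.mem_univ u) h
  have hEb : Real.pi * I * Eb E ((ρ u)⁻¹ • ε) (rv t) = κ u * em q (q - u) (rv t) := by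
    rw [hK, Finset.sum_eq_single (u : ℕ)]
    · rw [hemv u huU, if_pos rfl, hξ u]
      field_simp
    · intro v hv hne
      rw [hemv v hv, if_neg hne]
      ring
    · intro h
      exact absurd huU h
  have hB : Bx ρ κ (sc q s ρ (rv t)) (Pi.single u 1) = κ u * em q (q - u) (rv t) := by
    rw [Bx, Finset.sum_eq_single u]
    · rw [sc, mul_div_cancel_left₀ _ hρu, em_rv (by omega) hu.2.1.le]
      simp
    · intro v _ hv
      simp [hv]
    · intro h
      exact absurd (Finset.mem_univ u) h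
  have hQ : Qx q s ρ κ (rv t) = Bx ρ κ (sc q s ρ (rv t)) (sc q s ρ (rv t)) := by
    rw [Qx, Bx]
    refine Finset.sum_congr rfl fun v _ => ?_
    have hv := hs.mem v v.2
    rw [sc, mul_div_cancel_left₀ _ (hρ v v.2), em_rv (by omega) hv.2.1.le]
    ring
  rw [nab, fderiv_Fx ρ κ hg, hsc, hsum1, hEb, hB, Fx, hQ]
  ring

/-- `ε / ρ` is holomorphic -/
theorem eps_mem_Nc {q : ℕ} {s : Finset ℕ} (hs : HS q s) (u : s) {ε : Iq q → ℂ}
    (hε : IsEps q u ε) (c : ℂ) : c • ε ∈ Nc (Ns q s) := by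
  have hq : 0 < q := by
    have := hs.three
    omega
  refine (Nc (Ns q s)).smul_mem c ?_
  intro v hv
  have hv' := hs.mem v hv
  change em q v (cj ε) = 0
  rw [em_cj hq hv'.2.1.le, hε (q - v) (HS_mem' hs ⟨v, hv⟩), if_neg, map_zero]
  intro h
  have h1 := (hs.half v hv'.1 hv'.2.1 hv'.2.2).1 hv
  rw [h] at h1
  exact h1 u.2

end

end Pool.Agent.Helper63.SH
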